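import Pool.Agent.H48.SF.Final

set_option autoImplicit false

namespace Pool.Agent.Results.MP_22d6bb_nt.MoebiusSigns

open Pool.Agent.H41.Per (PM)

/-- (1) Let the residue class `r` modulo `m` contain a `k` with `3k²+3k+1` squarefree.  Then it
contains infinitely many `k` with `μ(3k²+3k+1) = -1` and infinitely many `k` with
`μ(3k²+3k+1) = 1`.  (2) For a completely multiplicative `g` with values `1, -1`: `g (3k²+3k+1)` is
constant on the squarefree values `3k²+3k+1`, `k` large, of some residue class which contains a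
squarefree value if and only if `g` agrees with a Dirichlet character at all but finitely many
primes `p ≡ 1 (mod 3)`. -/
theorem result :
    (∀ m r : ℕ, r < m → (∃ k : ℕ, k % m = r ∧ Squarefree (3 * k ^ 2 + 3 * k + 1)) →
      {k : ℕ | k % m = r ∧ ArithmeticFunction.moebius (3 * k ^ 2 + 3 * k + 1) = -1}.Infinite ∧
      {k : ℕ | k % m = r ∧ ArithmeticFunction.moebius (3 * k ^ 2 + 3 * k + 1) = 1}.Infinite) ∧
    (∀ g : ℕ → ℤ, (∀ n, n ≠ 0 → g n = 1 ∨ g n = -1) →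
      (∀ a b, a ≠ 0 → b ≠ 0 → g (a * b) = g a * g b) →
      ((∃ m r K : ℕ, ∃ ε : ℤ, r < m ∧
          (∃ k : ℕ, k % m = r ∧ Squarefree (3 * k ^ 2 + 3 * k + 1)) ∧
          ∀ k, K ≤ k → k % m = r → Squarefree (3 * k ^ 2 + 3 * k + 1) →
            g (3 * k ^ 2 + 3 * k + 1) = ε) ↔
        ∃ M : ℕ, 0 < M ∧ ∃ χ : DirichletCharacter ℤ M,
          {p : ℕ | p.Prime ∧ p % 3 = 1 ∧ g p ≠ χ p}.Finite)) := by
  refine ⟨fun m r hr h0 => Pool.Agent.H48.SF.moebius_signs hr h0, fun g h1 h2 => ?_⟩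
  have hg : PM g := ⟨h1, h2⟩
  constructor
  · rintro ⟨m, r, K, ε, hr, h0, h⟩
    obtain ⟨M, χ, hM, hχ⟩ := Pool.Agent.H48.SF.char_of_sqfree hg hr h0 h
    refine ⟨M, hM, χ, ?_⟩
    refine (Set.finite_Iic M).subset ?_
    rintro p ⟨hp, h3, hne⟩
    rw [Set.mem_Iic]
    by_contra hlt
    push Not at hlt
    exact hne (hχ p hp h3 fun hd => by
      have := Nat.le_of_dvd hM hd
      omega)
  · rintro ⟨M, hM, χ, hfin⟩
    obtain ⟨m, hm, h⟩ := Pool.Agent.H48.AP.class_of_char hg hM χ hfin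
    exact ⟨m, 0, 0, 1, hm, ⟨0, Nat.zero_mod m, by simp⟩, fun k _ hk _ => h k hk⟩

end Pool.Agent.Results.MP_22d6bb_nt.MoebiusSigns
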