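import Pool.Agent.H61.Rot.Final

/-!
Both parities of the number of prime factors of `(k+1)³ - k³` occur for at least `X / (log X)^C` of
the `k ≤ X` for which `(k+1)³ - k³` is nearly squarefree with few prime factors.
-/

set_option autoImplicit false

namespace Pool.Agent.Results.MP_22d6bb_nt.NearSquarefree

open Classical in
/-- The number of prime factors of `n` which belong to `S`, counted with multiplicity. -/
noncomputable def omegaIn (S : Set ℕ) (n : ℕ) : ℕ :=
  (n.primeFactorsList.filter (fun p => decide (p ∈ S))).length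

/-- `3k²+3k+1 = m² n` with `n` squarefree and `m ≤ (log X)^C`, and `3k²+3k+1` has at most
`C log log X` prime factors, counted with multiplicity. -/
def Typical (C X k : ℕ) : Prop :=
  (∃ m n : ℕ, 3 * k ^ 2 + 3 * k + 1 = m ^ 2 * n ∧ Squarefree n ∧ (m : ℝ) ≤ (Real.log X) ^ C) ∧
    (ArithmeticFunction.cardFactors (3 * k ^ 2 + 3 * k + 1) : ℝ) ≤ C * Real.log (Real.log X)

/-- There is an absolute constant `C` with the following properties.  (1) For every `P` there is
`X₀` such that for every set `S` and every `X ≥ X₀`: at least `X / (log X)^C` of the `k ≤ X` are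
typical and such that `3k²+3k+1` has an even number of prime factors in `S`; and, if `S` contains a
prime `p ≤ P`, `p ≡ 1 (mod 3)`, at least `X / (log X)^C` of the `k ≤ X` are typical and such that
`3k²+3k+1` has an odd number of prime factors in `S`.  (2) For both signs `ε` and all large `X`, at
least `X / (log X)^C` of the `k ≤ X` are such that `3k²+3k+1 = m² n` with `μ(n) = ε`,
`m ≤ (log X)^C`, and `3k²+3k+1` has at most `C log log X` prime factors. -/
theorem result : ∃ C : ℕ,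
    (∀ P : ℕ, ∃ X₀ : ℕ, ∀ S : Set ℕ, ∀ X : ℕ, X₀ ≤ X →
      (X : ℝ) / (Real.log X) ^ C ≤
        (Set.ncard {k : ℕ | 1 ≤ k ∧ k ≤ X ∧ Even (omegaIn S (3 * k ^ 2 + 3 * k + 1)) ∧
          Typical C X k} : ℝ) ∧
      ((∃ p ∈ S, p.Prime ∧ p % 3 = 1 ∧ p ≤ P) → (X : ℝ) / (Real.log X) ^ C ≤
        (Set.ncard {k : ℕ | 1 ≤ k ∧ k ≤ X ∧ Odd (omegaIn S (3 * k ^ 2 + 3 * k + 1)) ∧
          Typical C X k} : ℝ))) ∧
    (∃ X₀ : ℕ, ∀ ε : ℤ, (ε = 1 ∨ ε = -1) → ∀ X : ℕ, X₀ ≤ X →
      (X : ℝ) / (Real.log X) ^ C ≤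
        (Set.ncard {k : ℕ | 1 ≤ k ∧ k ≤ X ∧
          (∃ m n : ℕ, 3 * k ^ 2 + 3 * k + 1 = m ^ 2 * n ∧ ArithmeticFunction.moebius n = ε ∧
            (m : ℝ) ≤ (Real.log X) ^ C) ∧
          (ArithmeticFunction.cardFactors (3 * k ^ 2 + 3 * k + 1) : ℝ) ≤
            C * Real.log (Real.log X)} : ℝ)) := by
  obtain ⟨C, hC⟩ := Pool.Agent.H61.Rot.final
  exact ⟨C, hC, Pool.Agent.H61.Rot.moebius_of_final C hC⟩

end Pool.Agent.Results.MP_22d6bb_nt.NearSquarefree
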