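import Pool.Agent.H55.Odd.Main

/-!
# For odd `m`, every residue class modulo `m` is taken by `Ω((k+1)³ - k³)` for at least
`X^(1-ε)` of the `k ≤ X`.
-/

set_option autoImplicit false

namespace Pool.Agent.Results.MP_22d6bb_nt.OddModuli

/-- For every odd `m`, every residue `r` modulo `m` and every `ε > 0`: for all large `X`, at least
`X^(1-ε)` of the integers `1 ≤ k ≤ X` are such that the number `Ω(3k²+3k+1)` of prime factors of
`(k+1)³ - k³ = 3k²+3k+1`, counted with multiplicity, is congruent to `r` modulo `m`. -/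
theorem result (m : ℕ) (hm : Odd m) (r : ℕ) (ε : ℝ) (hε : 0 < ε) :
    ∃ X₀ : ℕ, ∀ X : ℕ, X₀ ≤ X → (X : ℝ) ^ (1 - ε) ≤
      (Set.ncard {k : ℕ | 1 ≤ k ∧ k ≤ X ∧
        ArithmeticFunction.cardFactors (3 * k ^ 2 + 3 * k + 1) ≡ r [MOD m]} : ℝ) := by
  classical
  obtain ⟨X0, hX0⟩ := Pool.Agent.H55.Odd.main hm (r : ZMod m) ε hε
  refine ⟨X0, fun X hX => (hX0 X hX).trans ?_⟩
  have hfin : {k : ℕ | 1 ≤ k ∧ k ≤ X ∧
      ArithmeticFunction.cardFactors (3 * k ^ 2 + 3 * k + 1) ≡ r [MOD m]}.Finite :=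
    (Set.finite_Iic X).subset fun k hk => hk.2.1
  rw [← Set.ncard_coe_finset]
  have := Set.ncard_le_ncard (s := (((Finset.Icc 1 X).filter
      (fun k => (ArithmeticFunction.cardFactors (3 * k^2 + 3 * k + 1) : ZMod m) = r) :
        Finset ℕ) : Set ℕ)) (fun k hk => by
        obtain ⟨a, b⟩ := Finset.mem_filter.1 (Finset.mem_coe.1 hk)
        obtain ⟨a1, a2⟩ := Finset.mem_Icc.1 a
        exact ⟨a1, a2, (ZMod.natCast_eq_natCast_iff _ _ _).1 b⟩) hfin
  exact_mod_cast this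

end Pool.Agent.Results.MP_22d6bb_nt.OddModuli
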