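import Pool.Agent.H62.RV.Main4

/-!
# Rough values of `3k² + 3k + 1` of both parities in every residue class

There is `δ > 0` such that for all large `X`, all `m ≤ (log X)^δ`, all residue classes `r` modulo `m` with
`3r² + 3r + 1` prime to `m` and both signs `ε`: at least `X^(1/250)` of the integers `1 ≤ k ≤ X`,
`k ≡ r mod m`, are such that every prime factor of `3k² + 3k + 1` is larger than `exp ((log X)^δ)` and
`(-1)^Ω(3k² + 3k + 1) = ε`.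
-/

set_option autoImplicit false

namespace Pool.Agent.Results.MP_22d6bb_nt.RoughClasses

theorem result : ∃ δ : ℝ, 0 < δ ∧ ∃ X₀ : ℕ, ∀ X : ℕ, X₀ ≤ X → ∀ m r : ℕ, 0 < m →
    (m : ℝ) ≤ Real.log X ^ δ → Nat.Coprime (3 * r ^ 2 + 3 * r + 1) m →
    ∀ ε : ℤ, (ε = 1 ∨ ε = -1) →
    (X : ℝ) ^ ((1 : ℝ) / 250) ≤ (Set.ncard {k : ℕ | 1 ≤ k ∧ k ≤ X ∧ k % m = r % m ∧
      (∀ p : ℕ, p.Prime → p ∣ 3 * k ^ 2 + 3 * k + 1 → Real.exp (Real.log X ^ δ) < p) ∧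
      (-1 : ℤ) ^ (ArithmeticFunction.cardFactors (3 * k ^ 2 + 3 * k + 1)) = ε} : ℝ) :=
  Pool.Agent.H62.RV.main4

end Pool.Agent.Results.MP_22d6bb_nt.RoughClasses
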